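import Pool.Agent.Q216.IS.Net

/-!
# The equational theory of representable implication semigroups is not finitely axiomatisable

For a set `Ω` of colours let `b ; c`, for `b, c ⊆ Ω`, be the set of the colours `k` for which there
are `i ∈ b`, `j ∈ c`, not both equal to `k`.  With `b → c = (Ω \ b) ∪ c` this is an algebra on the
power set of `Ω`.  For `Ω = ℕ` it is representable (generic colouring).  For finite `Ω` it fails an
equation of the theory (Ramsey's theorem for triangles), although it satisfies all equations of the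
theory in few variables.
-/

set_option autoImplicit false

namespace Pool.Agent.Results.MP_634bde_lc.NotFinitelyBased

open Pool.Agent.Q216.IS

/-- An algebra with two binary operations `→` and `;`. -/
class Alg (A : Type) where
  /-- the operation `→` -/
  imp : A → A → A
  /-- the operation `;` -/
  comp : A → A → A

/-- `h` is an isomorphism of the algebra `A` onto an algebra of subrelations of the transitive
relation `T` on `X`, with relative implication `(T \ a) ∪ b` and relational composition. -/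
structure IsRepr (A : Type) [Alg A] {X : Type*} (T : X → X → Prop) (h : A → X → X → Prop) :
    Prop where
  trans : ∀ x y z, T x y → T y z → T x z
  inj : Function.Injective h
  sub : ∀ a x y, h a x y → T x y
  imp : ∀ a b x y, h (Alg.imp a b) x y ↔ T x y ∧ (h a x y → h b x y)
  comp : ∀ a b x y, h (Alg.comp a b) x y ↔ ∃ u, h a x u ∧ h b u y

/-- The algebra is representable over a set of the universe `v`. -/
def Representable.{v} (A : Type) [Alg A] : Prop :=
  ∃ (X : Type v) (T : X → X → Prop) (h : A → X → X → Prop), IsRepr A T h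

/-- Terms of the signature `(→, ;)` in the variables `0, 1, 2, …`. -/
inductive Term : Type
  | var (n : ℕ) : Term
  | imp (s t : Term) : Term
  | comp (s t : Term) : Term

/-- The value of a term. -/
def Term.eval {A : Type} [Alg A] (v : ℕ → A) : Term → A
  | .var n => v n
  | .imp s t => Alg.imp (s.eval v) (t.eval v)
  | .comp s t => Alg.comp (s.eval v) (t.eval v)

/-- All variables of the term are smaller than `k`. -/
def Term.Below (k : ℕ) : Term → Prop
  | .var n => n < k
  | .imp s t => s.Below k ∧ t.Below k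
  | .comp s t => s.Below k ∧ t.Below k

/-- The algebra satisfies the equation. -/
def Holds (A : Type) [Alg A] (e : Term × Term) : Prop := ∀ v : ℕ → A, e.1.eval v = e.2.eval v

/-- The equational theory of the representable implication semigroups. -/
def EqTh.{v} : Set (Term × Term) :=
  {e | ∀ (A : Type) [Alg A], Representable.{v} A → Holds A e}

/-! ### The colour algebras -/

/-- The algebra on the power set of a set of colours. -/
instance colAlg (Ω : Type) : Alg (Set Ω) where
  imp b c := bᶜ ∪ c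
  comp b c := {k | ∃ i ∈ b, ∃ j ∈ c, ¬ (i = k ∧ j = k)}

theorem repr_nat : IsRepr (Set ℕ) (fun x y => ∃ k, Rel x y k) (fun b x y => ∃ k ∈ b, Rel x y k) where
  trans := by
    rintro x y z ⟨k, h1⟩ ⟨l, h2⟩
    exact rel_good.tr _ _ _ _ _ h1 h2
  inj := by
    have h1 : ∀ b c : Set ℕ, (fun x y => ∃ k ∈ b, Rel x y k) = (fun x y => ∃ k ∈ c, Rel x y k) →
        b ⊆ c := by
      intro b c h i hi
      obtain ⟨x, y, hxy⟩ := rel_colour i
      have h2 : ∃ k ∈ b, Rel x y k := ⟨i, hi, hxy⟩
      rw [congrFun (congrFun h x) y] at h2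
      obtain ⟨k, hk, h3⟩ := h2
      rwa [rel_good.fn _ _ _ _ hxy h3]
    intro b c h
    exact Set.Subset.antisymm (h1 b c h) (h1 c b h.symm)
  sub := by
    rintro b x y ⟨k, -, h⟩
    exact ⟨k, h⟩
  imp := by
    intro b c x y
    constructor
    · rintro ⟨k, hk, h⟩
      refine ⟨⟨k, h⟩, ?_⟩
      rintro ⟨l, hl, h'⟩
      have hkl := rel_good.fn _ _ _ _ h h'
      subst hkl
      rcases hk with hk | hk
      · exact absurd hl hk
      · exact ⟨k, hk, h⟩
    · rintro ⟨⟨k, h⟩, h'⟩
      by_cases hk : k ∈ b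
      · obtain ⟨l, hl, h2⟩ := h' ⟨k, hk, h⟩
        exact ⟨l, Or.inr hl, h2⟩
      · exact ⟨k, Or.inl hk, h⟩
  comp := by
    intro b c x y
    constructor
    · rintro ⟨k, ⟨i, hi, j, hj, hij⟩, h⟩
      obtain ⟨u, h1, h2⟩ := rel_witness h hij
      exact ⟨u, ⟨i, hi, h1⟩, ⟨j, hj, h2⟩⟩
    · rintro ⟨u, ⟨i, hi, h1⟩, ⟨j, hj, h2⟩⟩
      obtain ⟨k, h3⟩ := rel_good.tr _ _ _ _ _ h1 h2
      refine ⟨k, ⟨i, hi, j, hj, ?_⟩, h3⟩
      rintro ⟨rfl, rfl⟩
      exact rel_good.nm _ _ _ _ h1 h2 h3

theorem representable_nat.{v} : Representable.{v} (Set ℕ) := by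
  have H := repr_nat
  refine ⟨ULift.{v} ℕ, fun p q => ∃ k, Rel p.down q.down k,
    fun a p q => ∃ k ∈ a, Rel p.down q.down k, ?_, ?_, ?_, ?_, ?_⟩
  · intro x y z
    exact H.trans x.down y.down z.down
  · intro a b hab
    apply H.inj
    funext p q
    exact congrFun (congrFun hab ⟨p⟩) ⟨q⟩
  · intro a x y
    exact H.sub a x.down y.down
  · intro a b x y
    exact H.imp a b x.down y.down
  · intro a b x y
    rw [H.comp a b x.down y.down]
    exact ⟨fun ⟨u, h⟩ => ⟨⟨u⟩, h⟩, fun ⟨u, h⟩ => ⟨u.down, h⟩⟩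

/-! ### Equations in few variables -/

/-- The map from the natural numbers onto `Fin n` whose fibres are singletons, except for the fibre
of `p`, which is infinite. -/
def fold {n : ℕ} (p : Fin n) (m : ℕ) : Fin n := if h : m < n then ⟨m, h⟩ else p

theorem fold_val {n : ℕ} (p q : Fin n) : fold p q.1 = q := by simp [fold]

theorem fold_fibre {n : ℕ} {p : Fin n} {m m' : ℕ} (h : fold p m = fold p m') (hne : m ≠ m') :
    fold p m = p := by
  unfold fold at *
  split_ifs at * with h1 h2
  · exact absurd (by simpa using h) hne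
  · exact h
  · rfl
  · rfl

theorem fold_comp {n : ℕ} (p : Fin n) (b c : Set (Fin n)) (hbc : ¬ (b = {p} ∧ c = {p})) :
    fold p ⁻¹' (Alg.comp b c) = Alg.comp (fold p ⁻¹' b) (fold p ⁻¹' c) := by
  ext m
  constructor
  · rintro ⟨i, hi, j, hj, hij⟩
    by_cases h1 : i = fold p m
    · refine ⟨m, by change fold p m ∈ b; rw [← h1]; exact hi, j.1,
        by change fold p j.1 ∈ c; rw [fold_val]; exact hj, ?_⟩
      rintro ⟨-, h2⟩
      exact hij ⟨h1, by rw [← h2, fold_val]⟩
    · refine ⟨i.1, by change fold p i.1 ∈ b; rw [fold_val]; exact hi, j.1,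
        by change fold p j.1 ∈ c; rw [fold_val]; exact hj, ?_⟩
      rintro ⟨h2, -⟩
      exact h1 (by rw [← h2, fold_val])
  · rintro ⟨i, hi, j, hj, hij⟩
    change fold p i ∈ b at hi
    change fold p j ∈ c at hj
    change ∃ i ∈ b, ∃ j ∈ c, ¬ (i = fold p m ∧ j = fold p m)
    by_cases h1 : fold p i = fold p m ∧ fold p j = fold p m
    · have hp : fold p m = p := by
        by_cases h2 : i = m
        · have h3 : j ≠ m := fun h3 => hij ⟨h2, h3⟩
          exact fold_fibre h1.2.symm (Ne.symm h3)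
        · exact fold_fibre h1.1.symm (Ne.symm h2)
      rw [hp] at h1 ⊢
      rw [h1.1] at hi
      rw [h1.2] at hj
      by_cases h4 : b = {p}
      · have h5 : c ≠ {p} := fun h5 => hbc ⟨h4, h5⟩
        obtain ⟨l, hl, hlp⟩ : ∃ l ∈ c, l ≠ p := by
          by_contra h6
          push Not at h6
          exact h5 (Set.Subset.antisymm h6 (by rintro _ rfl; exact hj))
        exact ⟨p, hi, l, hl, fun h => hlp h.2⟩
      · obtain ⟨l, hl, hlp⟩ : ∃ l ∈ b, l ≠ p := by
          by_contra h6
          push Not at h6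
          exact h4 (Set.Subset.antisymm h6 (by rintro _ rfl; exact hi))
        exact ⟨l, hl, p, hj, fun h => hlp h.1⟩
    · exact ⟨_, hi, _, hj, h1⟩

/-- Membership in the first `k` sets of a sequence does not distinguish `p` from `q`; then no value
of a term in the first `k` variables does. -/
theorem eval_twins {n k : ℕ} (v : ℕ → Set (Fin n)) {p q : Fin n}
    (hpq : ∀ i < k, (p ∈ v i ↔ q ∈ v i)) (t : Term) (ht : t.Below k) :
    p ∈ t.eval v ↔ q ∈ t.eval v := by
  induction t with
  | var i => exact hpq i ht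
  | imp s t hs ht' =>
    have h1 := hs ht.1
    have h2 := ht' ht.2
    change (p ∈ (s.eval v)ᶜ ∪ t.eval v) ↔ (q ∈ (s.eval v)ᶜ ∪ t.eval v)
    simp only [Set.mem_union, Set.mem_compl_iff, h1, h2]
  | comp s t hs ht' =>
    have h1 := hs ht.1
    have h2 := ht' ht.2
    have key : ∀ p q : Fin n, (p ∈ s.eval v ↔ q ∈ s.eval v) → (p ∈ t.eval v ↔ q ∈ t.eval v) →
        p ∈ (Alg.comp (s.eval v) (t.eval v) : Set (Fin n)) →
        q ∈ (Alg.comp (s.eval v) (t.eval v) : Set (Fin n)) := by
      intro p q h1 h2 h3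
      by_cases hpq' : p = q
      · rwa [← hpq']
      obtain ⟨i, hi, j, hj, hij⟩ := h3
      by_cases h4 : i = q ∧ j = q
      · obtain ⟨rfl, rfl⟩ := h4
        exact ⟨p, h1.2 hi, j, hj, fun h => hpq' h.1⟩
      · exact ⟨i, hi, j, hj, h4⟩
    exact ⟨key p q h1 h2, key q p h1.symm h2.symm⟩

theorem eval_fold {n k : ℕ} (v : ℕ → Set (Fin n)) {p q : Fin n} (hne : p ≠ q)
    (hpq : ∀ i < k, (p ∈ v i ↔ q ∈ v i)) (t : Term) (ht : t.Below k) :
    t.eval (fun i => fold p ⁻¹' (v i)) = fold p ⁻¹' (t.eval v) := by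
  induction t with
  | var i => rfl
  | imp s t hs ht' =>
    have h1 := hs ht.1
    have h2 := ht' ht.2
    simp only [Term.eval, h1, h2]
    rfl
  | comp s t hs ht' =>
    have h1 := hs ht.1
    have h2 := ht' ht.2
    simp only [Term.eval, h1, h2]
    rw [fold_comp]
    rintro ⟨h3, -⟩
    have h4 := eval_twins v hpq s ht.1
    rw [h3] at h4
    exact hne (h4.1 rfl).symm

theorem fold_injective {n : ℕ} (p : Fin n) :
    Function.Injective (fun b : Set (Fin n) => fold p ⁻¹' b) := by
  intro b c h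
  ext q
  have h1 : q.1 ∈ fold p ⁻¹' b ↔ q.1 ∈ fold p ⁻¹' c := by rw [show fold p ⁻¹' b = fold p ⁻¹' c from h]
  change fold p q.1 ∈ b ↔ fold p q.1 ∈ c at h1
  rwa [fold_val] at h1

/-- The algebra of `n > 2 ^ k` colours satisfies all equations of the theory in `k` variables. -/
theorem holds_few.{v} {n k : ℕ} (hn : 2 ^ k < n) (e : Term × Term) (he : e ∈ EqTh.{v})
    (h1 : e.1.Below k) (h2 : e.2.Below k) : Holds (Set (Fin n)) e := by
  intro v
  -- two colours which are not distinguished
  obtain ⟨p, q, hne, hpq⟩ : ∃ p q : Fin n, p ≠ q ∧ ∀ i < k, (p ∈ v i ↔ q ∈ v i) := by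
    classical
    have hc : Fintype.card (Fin k → Bool) < Fintype.card (Fin n) := by simpa using hn
    obtain ⟨p, q, hne, hf⟩ := Fintype.exists_ne_map_eq_of_card_lt
      (fun (p : Fin n) (i : Fin k) => decide (p ∈ v i.1)) hc
    refine ⟨p, q, hne, fun i hi => ?_⟩
    have := congrFun hf ⟨i, hi⟩
    simpa using this
  apply fold_injective p
  change fold p ⁻¹' (e.1.eval v) = fold p ⁻¹' (e.2.eval v)
  rw [← eval_fold v hne hpq e.1 h1, ← eval_fold v hne hpq e.2 h2]
  exact he (Set ℕ) representable_nat _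

/-! ### Ramsey's theorem for triangles -/

theorem ramsey_aux : ∀ n : ℕ, ∃ f : ℕ, ∀ (P : Finset ℕ), P.card = n → ∀ (S : Finset ℕ),
    f ≤ S.card → ∀ c : ℕ → ℕ → ℕ, (∀ i ∈ S, ∀ j ∈ S, i < j → c i j ∈ P) →
    ∃ i ∈ S, ∃ j ∈ S, ∃ k ∈ S, i < j ∧ j < k ∧ c i j = c j k ∧ c i j = c i k := by
  intro n
  induction n with
  | zero =>
    refine ⟨2, fun P hP S hS c hc => ?_⟩
    rw [Finset.card_eq_zero] at hP
    subst hP
    obtain ⟨i, hi, j, hj, hij⟩ := Finset.one_lt_card.1 (show 1 < S.card by omega)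
    rcases lt_or_gt_of_ne hij with h | h
    · exact absurd (hc i hi j hj h) (by simp)
    · exact absurd (hc j hj i hi h) (by simp)
  | succ n ih =>
    obtain ⟨f, hf⟩ := ih
    refine ⟨(n + 1) * f + 2, fun P hP S hS c hc => ?_⟩
    have hne : S.Nonempty := Finset.card_pos.1 (by omega)
    set x := S.min' hne with hx
    have hxS : x ∈ S := Finset.min'_mem _ _
    have hlt : ∀ j ∈ S.erase x, x < j := fun j hj => by
      have h1 := Finset.min'_le S j (Finset.mem_of_mem_erase hj)
      have h2 := Finset.ne_of_mem_erase hj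
      omega
    have hmap : ∀ j ∈ S.erase x, c x j ∈ P := fun j hj =>
      hc x hxS j (Finset.mem_of_mem_erase hj) (hlt j hj)
    have hcard : P.card * f < (S.erase x).card := by
      rw [Finset.card_erase_of_mem hxS, hP]
      omega
    obtain ⟨p, hp, hfib⟩ := Finset.exists_lt_card_fiber_of_mul_lt_card_of_maps_to hmap hcard
    set S' := (S.erase x).filter (fun j => c x j = p) with hS'
    have hS'S : ∀ j ∈ S', j ∈ S ∧ x < j ∧ c x j = p := fun j hj => by
      rw [hS', Finset.mem_filter] at hj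
      exact ⟨Finset.mem_of_mem_erase hj.1, hlt j hj.1, hj.2⟩
    by_cases h1 : ∃ i ∈ S', ∃ j ∈ S', i < j ∧ c i j = p
    · obtain ⟨i, hi, j, hj, hij, hcp⟩ := h1
      obtain ⟨i1, i2, i3⟩ := hS'S i hi
      obtain ⟨j1, j2, j3⟩ := hS'S j hj
      exact ⟨x, hxS, i, i1, j, j1, i2, hij, by rw [i3, hcp], by rw [i3, j3]⟩
    · push Not at h1
      obtain ⟨i, hi, j, hj, k, hk, h2⟩ := hf (P.erase p) (by rw [Finset.card_erase_of_mem hp, hP]; rfl)
        S' (by omega) c (fun i hi j hj hij => Finset.mem_erase.2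
          ⟨h1 i hi j hj hij, hc i (hS'S i hi).1 j (hS'S j hj).1 hij⟩)
      exact ⟨i, (hS'S i hi).1, j, (hS'S j hj).1, k, (hS'S k hk).1, h2⟩

theorem ramsey (n : ℕ) : ∃ m : ℕ, ∀ c : ℕ → ℕ → ℕ, (∀ i j, i < j → j ≤ m → c i j < n) →
    ∃ i j k, i < j ∧ j < k ∧ k ≤ m ∧ c i j = c j k ∧ c i j = c i k := by
  obtain ⟨f, hf⟩ := ramsey_aux n
  refine ⟨f, fun c hc => ?_⟩
  obtain ⟨i, -, j, -, k, hk, h1, h2, h3, h4⟩ := hf (Finset.range n) (by simp)
    (Finset.range (f + 1)) (by simp) c (fun i hi j hj hij => Finset.mem_range.2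
      (hc i j hij (by rw [Finset.mem_range] at hj; omega)))
  exact ⟨i, j, k, h1, h2, by rw [Finset.mem_range] at hk; omega, h3, h4⟩

/-! ### The equation which fails -/

namespace Term

/-- The join. -/
def jn (s t : Term) : Term := .imp (.imp s t) t

/-- The top element. -/
def one : Term := .imp (.var 0) (.var 0)

/-- The join of the variables `0, …, n`. -/
def jvars : ℕ → Term
  | 0 => .var 0
  | n + 1 => jn (jvars n) (.var (n + 1))

/-- The relation `((a ; a) ∩ a) ∪ z`, where `a` is the variable `i + 1` and `z` is the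
variable `0`. -/
def mono (i : ℕ) : Term :=
  .imp (.imp (.comp (.var (i + 1)) (.var (i + 1))) (.imp (.var (i + 1)) (.var 0))) (.var 0)

/-- The bad pairs. -/
def bad : ℕ → ℕ → Term
  | n, 0 => jn (.imp (jvars n) (.var 0)) (.var 0)
  | n, m + 1 => jn (bad n m) (mono m)

/-- The pairs which have a bad factor. -/
def ideal (n : ℕ) : Term :=
  jn (jn (bad n n) (.comp one (bad n n))) (jn (.comp (bad n n) one) (.comp one (.comp (bad n n) one)))

/-- The power of the top element with the exponent `m + 1`. -/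
def pow : ℕ → Term
  | 0 => one
  | m + 1 => .comp one (pow m)

end Term

section sem

variable {A : Type} [Alg A] {X : Type*} {T : X → X → Prop} {h : A → X → X → Prop}
  (H : IsRepr A T h) (v : ℕ → A)

include H

theorem h_one (x y : X) : h (Term.one.eval v) x y ↔ T x y := by
  change h (Alg.imp (v 0) (v 0)) x y ↔ _
  rw [H.imp]
  exact ⟨fun h => h.1, fun h => ⟨h, id⟩⟩

theorem h_jn (s t : Term) (x y : X) :
    h ((Term.jn s t).eval v) x y ↔ h (s.eval v) x y ∨ h (t.eval v) x y := by
  have h1 := H.sub (s.eval v) x y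
  have h2 := H.sub (t.eval v) x y
  change h (Alg.imp (Alg.imp (s.eval v) (t.eval v)) (t.eval v)) x y ↔ _
  rw [H.imp, H.imp]
  tauto

theorem h_jvars (n : ℕ) (x y : X) : h ((Term.jvars n).eval v) x y ↔ ∃ i ≤ n, h (v i) x y := by
  induction n with
  | zero =>
    change h (v 0) x y ↔ _
    exact ⟨fun h => ⟨0, le_rfl, h⟩, fun ⟨i, hi, h⟩ => by
      have : i = 0 := by omega
      rwa [this] at h⟩
  | succ n ih =>
    rw [Term.jvars, h_jn H, ih]
    constructor
    · rintro (⟨i, hi, h1⟩ | h1)
      · exact ⟨i, by omega, h1⟩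
      · exact ⟨n + 1, le_rfl, h1⟩
    · rintro ⟨i, hi, h1⟩
      by_cases h2 : i = n + 1
      · exact Or.inr (by rw [← h2]; exact h1)
      · exact Or.inl ⟨i, by omega, h1⟩

theorem h_mono (i : ℕ) (x y u : X) (h1 : h (v (i + 1)) x u) (h2 : h (v (i + 1)) u y)
    (h3 : h (v (i + 1)) x y) : h ((Term.mono i).eval v) x y := by
  change h (Alg.imp (Alg.imp (Alg.comp (v (i + 1)) (v (i + 1))) (Alg.imp (v (i + 1)) (v 0))) (v 0))
    x y
  rw [H.imp, H.imp, H.imp, H.comp]
  exact ⟨H.sub _ _ _ h3, fun h4 => (h4.2 ⟨u, h1, h2⟩).2 h3⟩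

theorem h_bad_of_not_cover (n m : ℕ) (x y : X) (hT : T x y)
    (h1 : ¬ ∃ i < n, h (v (i + 1)) x y) : h ((Term.bad n m).eval v) x y := by
  induction m with
  | zero =>
    rw [Term.bad, h_jn H]
    by_cases h2 : h (v 0) x y
    · exact Or.inr h2
    · refine Or.inl ?_
      change h (Alg.imp ((Term.jvars n).eval v) (v 0)) x y
      rw [H.imp, h_jvars H]
      refine ⟨hT, ?_⟩
      rintro ⟨i, hi, h3⟩
      obtain _ | i := i
      · exact h3
      · exact absurd ⟨i, by omega, h3⟩ h1
  | succ m ih =>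
    rw [Term.bad, h_jn H]
    exact Or.inl ih

theorem h_bad_of_mono (n m i : ℕ) (hi : i < m) (x y u : X) (h1 : h (v (i + 1)) x u)
    (h2 : h (v (i + 1)) u y) (h3 : h (v (i + 1)) x y) : h ((Term.bad n m).eval v) x y := by
  induction m with
  | zero => omega
  | succ m ih =>
    rw [Term.bad, h_jn H]
    by_cases h4 : i = m
    · subst h4
      exact Or.inr (h_mono H v i x y u h1 h2 h3)
    · exact Or.inl (ih (by omega))

theorem h_pow (m : ℕ) (x y : X) (h1 : h ((Term.pow m).eval v) x y) :
    ∃ f : ℕ → X, f 0 = x ∧ f (m + 1) = y ∧ ∀ i ≤ m, T (f i) (f (i + 1)) := by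
  induction m generalizing x with
  | zero =>
    refine ⟨fun i => if i = 0 then x else y, by simp, by simp, fun i hi => ?_⟩
    have : i = 0 := by omega
    subst this
    simpa using (h_one H v x y).1 h1
  | succ m ih =>
    change h (Alg.comp (Term.one.eval v) ((Term.pow m).eval v)) x y at h1
    rw [H.comp] at h1
    obtain ⟨u, h2, h3⟩ := h1
    obtain ⟨f, f1, f2, f3⟩ := ih u h3
    refine ⟨fun i => if i = 0 then x else f (i - 1), by simp, by simpa using f2, fun i hi => ?_⟩
    obtain _ | i := i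
    · simpa [f1] using (h_one H v x u).1 h2
    · simpa using f3 i (by omega)

theorem chain_trans {f : ℕ → X} {m : ℕ} (hf : ∀ i ≤ m, T (f i) (f (i + 1))) (i j : ℕ) (hij : i < j)
    (hj : j ≤ m + 1) : T (f i) (f j) := by
  induction j with
  | zero => omega
  | succ j ih =>
    by_cases h1 : i = j
    · subst h1
      exact hf i (by omega)
    · exact H.trans _ _ _ (ih (by omega) (by omega)) (hf j (by omega))

/-- Every pair of the power with a sufficiently large exponent has a bad factor. -/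
theorem pow_le_ideal {n m : ℕ} (hm : ∀ c : ℕ → ℕ → ℕ, (∀ i j, i < j → j ≤ m → c i j < n) →
      ∃ i j k, i < j ∧ j < k ∧ k ≤ m ∧ c i j = c j k ∧ c i j = c i k)
    (x y : X) (h1 : h ((Term.pow m).eval v) x y) : h ((Term.ideal n).eval v) x y := by
  classical
  obtain ⟨f, f1, f2, f3⟩ := h_pow H v m x y h1
  have ht := chain_trans H f3
  -- some pair is bad
  obtain ⟨i, j, hij, hj, hbad⟩ : ∃ i j, i < j ∧ j ≤ m + 1 ∧
      h ((Term.bad n n).eval v) (f i) (f j) := by
    by_contra hno
    push Not at hno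
    have hcov : ∀ i j, i < j → j ≤ m + 1 → ∃ l < n, h (v (l + 1)) (f i) (f j) := by
      intro i j hij hj
      by_contra h2
      exact hno i j hij hj (h_bad_of_not_cover H v n n _ _ (ht i j hij hj) h2)
    let c : ℕ → ℕ → ℕ := fun i j =>
      if h2 : i < j ∧ j ≤ m + 1 then Classical.choose (hcov i j h2.1 h2.2) else 0
    have hc : ∀ i j, i < j → j ≤ m + 1 → c i j < n ∧ h (v (c i j + 1)) (f i) (f j) := by
      intro i j hij hj
      have h3 : c i j = Classical.choose (hcov i j hij hj) := dif_pos ⟨hij, hj⟩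
      rw [h3]
      exact Classical.choose_spec (hcov i j hij hj)
    obtain ⟨i, j, k, hij, hjk, hk, e1, e2⟩ := hm c (fun i j hij hj => (hc i j hij (by omega)).1)
    have g1 := hc i j hij (by omega)
    have g2 := hc j k hjk (by omega)
    have g3 := hc i k (by omega) (by omega)
    rw [← e1] at g2
    rw [← e2] at g3
    exact hno i k (by omega) (by omega) (h_bad_of_mono H v n n _ g1.1 _ _ _ g1.2 g2.2 g3.2)
  rw [Term.ideal, h_jn H, h_jn H, h_jn H]
  by_cases hi0 : i = 0
  · subst hi0
    rw [f1] at hbad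
    by_cases hjm : j = m + 1
    · subst hjm
      rw [f2] at hbad
      exact Or.inl (Or.inl hbad)
    · refine Or.inr (Or.inl ?_)
      change h (Alg.comp ((Term.bad n n).eval v) (Term.one.eval v)) x y
      rw [H.comp]
      refine ⟨f j, hbad, (h_one H v _ _).2 ?_⟩
      rw [← f2]
      exact ht j (m + 1) (by omega) le_rfl
  · have hxi : T x (f i) := by
      rw [← f1]
      exact ht 0 i (by omega) (by omega)
    by_cases hjm : j = m + 1
    · subst hjm
      rw [f2] at hbad
      refine Or.inl (Or.inr ?_)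
      change h (Alg.comp (Term.one.eval v) ((Term.bad n n).eval v)) x y
      rw [H.comp]
      exact ⟨f i, (h_one H v _ _).2 hxi, hbad⟩
    · refine Or.inr (Or.inr ?_)
      change h (Alg.comp (Term.one.eval v)
        (Alg.comp ((Term.bad n n).eval v) (Term.one.eval v))) x y
      rw [H.comp]
      refine ⟨f i, (h_one H v _ _).2 hxi, ?_⟩
      rw [H.comp]
      refine ⟨f j, hbad, (h_one H v _ _).2 ?_⟩
      rw [← f2]
      exact ht j (m + 1) (by omega) le_rfl

end sem

/-- The equation `1 ^ (m + 1) → I = 1`. -/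
def ramseyEq (n m : ℕ) : Term × Term := (.imp (Term.pow m) (Term.ideal n), Term.one)

theorem ramseyEq_mem.{v} {n m : ℕ} (hm : ∀ c : ℕ → ℕ → ℕ, (∀ i j, i < j → j ≤ m → c i j < n) →
      ∃ i j k, i < j ∧ j < k ∧ k ≤ m ∧ c i j = c j k ∧ c i j = c i k) :
    ramseyEq n m ∈ EqTh.{v} := by
  rintro A _ ⟨X, T, h, H⟩ v
  apply H.inj
  funext x y
  apply propext
  change h (Alg.imp ((Term.pow m).eval v) ((Term.ideal n).eval v)) x y ↔ h (Term.one.eval v) x y
  rw [H.imp, h_one H]
  exact ⟨fun h => h.1, fun h1 => ⟨h1, pow_le_ideal H v hm x y⟩⟩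

/-! ### The equation fails in the finite colour algebras -/

theorem col_jn {Ω : Type} (v : ℕ → Set Ω) (s t : Term) :
    (Term.jn s t).eval v = s.eval v ∪ t.eval v := by
  change ((s.eval v)ᶜ ∪ t.eval v)ᶜ ∪ t.eval v = _
  ext x
  simp only [Set.mem_union, Set.mem_compl_iff]
  tauto

theorem col_comp_empty {Ω : Type} (b : Set Ω) : (Alg.comp b (∅ : Set Ω) : Set Ω) = ∅ := by
  ext k
  constructor
  · rintro ⟨i, -, j, hj, -⟩
    exact hj
  · intro h
    exact absurd h (by simp)

theorem col_empty_comp {Ω : Type} (b : Set Ω) : (Alg.comp (∅ : Set Ω) b : Set Ω) = ∅ := by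
  ext k
  constructor
  · rintro ⟨i, hi, -⟩
    exact hi
  · intro h
    exact absurd h (by simp)

theorem col_one {Ω : Type} (v : ℕ → Set Ω) : Term.one.eval v = Set.univ := by
  change (v 0)ᶜ ∪ v 0 = _
  exact Set.compl_union_self _

theorem col_pow {n : ℕ} (hn : 2 ≤ n) (v : ℕ → Set (Fin n)) (m : ℕ) :
    (Term.pow m).eval v = Set.univ := by
  induction m with
  | zero => exact col_one v
  | succ m ih =>
    change (Alg.comp (Term.one.eval v) ((Term.pow m).eval v) : Set (Fin n)) = _
    rw [ih, col_one]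
    ext k
    simp only [Set.mem_univ, iff_true]
    have : Nontrivial (Fin n) := Fin.nontrivial_iff_two_le.2 hn
    obtain ⟨l, hl⟩ := exists_ne k
    exact ⟨l, trivial, l, trivial, fun h => hl h.1⟩

/-- The valuation: the variable `0` is empty, the variable `i + 1` is the colour `i`. -/
def val (n : ℕ) (i : ℕ) : Set (Fin n) := {k | k.1 + 1 = i}

theorem col_jvars (n m : ℕ) : (Term.jvars m).eval (val n) = {k | k.1 < m} := by
  induction m with
  | zero =>
    change val n 0 = _
    ext k
    simp [val]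
  | succ m ih =>
    rw [Term.jvars, col_jn, ih]
    ext k
    change (k.1 < m ∨ k.1 + 1 = m + 1) ↔ k.1 < m + 1
    omega

theorem val_zero (n : ℕ) : val n 0 = ∅ := by
  ext k
  simp [val]

theorem col_mono (n i : ℕ) : (Term.mono i).eval (val n) = ∅ := by
  change ((((Alg.comp (val n (i + 1)) (val n (i + 1)) : Set (Fin n)))ᶜ ∪
    ((val n (i + 1))ᶜ ∪ val n 0))ᶜ ∪ val n 0) = ∅
  rw [val_zero]
  ext k
  simp only [Set.union_empty, Set.compl_union, compl_compl, Set.mem_inter_iff, Set.mem_empty_iff_false,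
    iff_false]
  rintro ⟨⟨a, ha, b, hb, hab⟩, hk⟩
  change a.1 + 1 = i + 1 at ha
  change b.1 + 1 = i + 1 at hb
  change k.1 + 1 = i + 1 at hk
  exact hab ⟨Fin.ext (by omega), Fin.ext (by omega)⟩

theorem col_bad (n m : ℕ) : (Term.bad n m).eval (val n) = ∅ := by
  induction m with
  | zero =>
    rw [Term.bad, col_jn]
    change (((Term.jvars n).eval (val n))ᶜ ∪ val n 0) ∪ val n 0 = ∅
    rw [col_jvars, val_zero]
    ext k
    simp
  | succ m ih => rw [Term.bad, col_jn, ih, col_mono, Set.union_empty]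

theorem not_holds {n : ℕ} (hn : 2 ≤ n) (m : ℕ) : ¬ Holds (Set (Fin n)) (ramseyEq n m) := by
  intro h
  have h1 := h (val n)
  change ((Term.pow m).eval (val n))ᶜ ∪ (Term.ideal n).eval (val n) = Term.one.eval (val n) at h1
  have h2 : (Term.ideal n).eval (val n) = ∅ := by
    rw [Term.ideal, col_jn, col_jn, col_jn]
    change ((Term.bad n n).eval (val n) ∪
      (Alg.comp (Term.one.eval (val n)) ((Term.bad n n).eval (val n)) : Set (Fin n))) ∪
      ((Alg.comp ((Term.bad n n).eval (val n)) (Term.one.eval (val n)) : Set (Fin n)) ∪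
        (Alg.comp (Term.one.eval (val n))
          (Alg.comp ((Term.bad n n).eval (val n)) (Term.one.eval (val n)) : Set (Fin n)) :
            Set (Fin n))) = ∅
    rw [col_bad, col_comp_empty, col_empty_comp, col_comp_empty]
    simp
  rw [h2, col_pow hn, col_one, Set.compl_univ, Set.union_empty] at h1
  have h3 : (⟨0, by omega⟩ : Fin n) ∈ (∅ : Set (Fin n)) := by rw [h1]; trivial
  exact h3

/-- **The equational theory of the representable implication semigroups is not finitely
axiomatisable**, and no set of equations with a bounded number of variables axiomatises it: for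
every `k` there is a finite algebra which satisfies all equations of the theory in the variables
`0, …, k - 1`, and fails some equation of the theory.  In particular, for every finite set `E` of
equations of the theory there is an algebra which satisfies `E` and fails some equation of the
theory. -/
theorem result.{v} :
    (∀ k : ℕ, ∃ (S : Type) (_ : Finite S) (_ : Alg S),
      (∀ e ∈ EqTh.{v}, e.1.Below k → e.2.Below k → Holds S e) ∧ ∃ e ∈ EqTh.{v}, ¬ Holds S e) ∧
    ∀ E : Set (Term × Term), E.Finite → E ⊆ EqTh.{v} →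
      ∃ (S : Type) (_ : Finite S) (_ : Alg S), (∀ e ∈ E, Holds S e) ∧ ∃ e ∈ EqTh.{v}, ¬ Holds S e := by
  have main : ∀ k : ℕ, ∃ (S : Type) (_ : Finite S) (_ : Alg S),
      (∀ e ∈ EqTh.{v}, e.1.Below k → e.2.Below k → Holds S e) ∧ ∃ e ∈ EqTh.{v}, ¬ Holds S e := by
    intro k
    obtain ⟨m, hm⟩ := ramsey (2 ^ k + 2)
    refine ⟨Set (Fin (2 ^ k + 2)), inferInstance, inferInstance,
      fun e he h1 h2 => holds_few (Nat.lt_add_of_pos_right (by norm_num)) e he h1 h2, ramseyEq (2 ^ k + 2) m,
      ramseyEq_mem hm, not_holds (Nat.le_add_left 2 _) m⟩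
  refine ⟨main, fun E hfin hE => ?_⟩
  -- a bound for the variables of a term
  have mono : ∀ (t : Term) (k l : ℕ), k ≤ l → t.Below k → t.Below l := by
    intro t k l hkl
    induction t with
    | var n => exact fun h => lt_of_lt_of_le h hkl
    | imp s t hs ht => exact fun h => ⟨hs h.1, ht h.2⟩
    | comp s t hs ht => exact fun h => ⟨hs h.1, ht h.2⟩
  have bound : ∀ t : Term, ∃ k, t.Below k := by
    intro t
    induction t with
    | var n => exact ⟨n + 1, Nat.lt_succ_self n⟩
    | imp s t hs ht =>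
      obtain ⟨a, ha⟩ := hs
      obtain ⟨b, hb⟩ := ht
      exact ⟨a + b, mono _ _ _ (by omega) ha, mono _ _ _ (by omega) hb⟩
    | comp s t hs ht =>
      obtain ⟨a, ha⟩ := hs
      obtain ⟨b, hb⟩ := ht
      exact ⟨a + b, mono _ _ _ (by omega) ha, mono _ _ _ (by omega) hb⟩
  choose f hf using bound
  obtain ⟨k, hk⟩ : ∃ k, ∀ e ∈ E, f e.1 ≤ k ∧ f e.2 ≤ k := by
    obtain ⟨k, hk⟩ := (hfin.image (fun e : Term × Term => f e.1 + f e.2)).bddAbove
    refine ⟨k, fun e he => ?_⟩
    have := hk ⟨e, he, rfl⟩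
    change f e.1 + f e.2 ≤ k at this
    omega
  obtain ⟨S, i1, i2, h1, h2⟩ := main k
  exact ⟨S, i1, i2, fun e he => h1 e (hE he) (mono _ _ _ (hk e he).1 (hf e.1))
    (mono _ _ _ (hk e he).2 (hf e.2)), h2⟩

end Pool.Agent.Results.MP_634bde_lc.NotFinitelyBased
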